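import Pool.Agent.V1150.MZ.GP7

namespace Pool.Agent.Results.MP_0ee941_al.TwistedGroup25

open Module

/-- The set of the degrees of the irreducible complex representations of a group. -/
def cd (X : Type) [Group X] : Set ℕ :=
  {n | ∃ (V : Type) (_ : AddCommGroup V) (_ : Module ℂ V) (_ : FiniteDimensional ℂ V)
    (ρ : Representation ℂ X V), ρ.IsIrreducible ∧ finrank ℂ V = n}

/-- `H` embeds in the automorphism group of `S` with image containing the inner automorphisms. -/
def BetweenInnAut (S H : Type) [Group S] [Group H] : Prop :=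
  ∃ f : H →* MulAut S, Function.Injective f ∧ (MulAut.conj : S →* MulAut S).range ≤ f.range

/-- `S` is a nonabelian simple group. -/
def NonabelianSimple (S : Type) [Group S] : Prop :=
  IsSimpleGroup S ∧ ∃ a b : S, a * b ≠ b * a

/-- No quotient of `G` is isomorphic to `H`. -/
def NoQuotient (G H : Type) [Group G] [Group H] : Prop :=
  ∀ (A : Subgroup G) [A.Normal], ¬ Nonempty (G ⧸ A ≃* H)

/-- The common set of character degrees. -/
def D : Set ℕ := {1, 25, 26, 48, 52}

instance prime5 : Fact (Nat.Prime 5) := ⟨by norm_num⟩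

/-- The projective special linear group `PSL(2, 25)`. -/
abbrev S : Type := Matrix.ProjectiveSpecialLinearGroup (Fin 2) (GaloisField 5 2)

/-- There are an almost simple group `H` with socle `PSL(2, 25)` and a finite group `G` with the
same set of character degrees such that no quotient of `G` is isomorphic to `H`. -/
theorem result : NonabelianSimple S ∧
    ∃ (H G : Type) (_ : Group H) (_ : Group G), Finite H ∧ Finite G ∧ BetweenInnAut S H ∧
      cd H = D ∧ cd G = D ∧ NoQuotient G H := by
  classical
  have : Finite (GaloisField 5 2) := inferInstance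
  have : Fintype (GaloisField 5 2) := Fintype.ofFinite _
  have hcard : Nat.card (GaloisField 5 2) = 25 := by
    rw [GaloisField.card 5 2 (by norm_num)]
    norm_num
  have hF : Fact (Fintype.card (GaloisField 5 2) = 25) :=
    ⟨by rw [← Nat.card_eq_fintype_card]; exact hcard⟩
  obtain ⟨ω, hω, hgen⟩ := V1150.MZ.gen (F := GaloisField 5 2)
  refine ⟨⟨?_, V1150.MZ.not_comm⟩, V1150.MZ.KK (F := GaloisField 5 2) ⊤ 1 V1150.MZ.top_sq,
    V1150.MZ.KK (V1150.MZ.Lsq (GaloisField 5 2)) ω V1150.MZ.sq_Lsq, inferInstance, inferInstance,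
    inferInstance, inferInstance, V1150.MZ.aut_embed, ?_, ?_, ?_⟩
  · exact Matrix.ProjectiveSpecialLinearGroup.rank_two_simple (by rw [hcard]; norm_num)
  · ext n
    exact (V1150.MZ.same_degrees hω hgen n).2
  · ext n
    exact (V1150.MZ.same_degrees hω hgen n).1
  · rintro A hA ⟨e⟩
    have h1 := Nat.card_congr e.toEquiv
    have h2 := V1150.MZ.lt_card (F := GaloisField 5 2) hω
    have h3 : Nat.card (V1150.MZ.KK (V1150.MZ.Lsq (GaloisField 5 2)) ω V1150.MZ.sq_Lsq ⧸ A) ≤
        Nat.card (V1150.MZ.KK (V1150.MZ.Lsq (GaloisField 5 2)) ω V1150.MZ.sq_Lsq) :=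
      Nat.card_le_card_of_surjective _ (QuotientGroup.mk'_surjective A)
    omega

end Pool.Agent.Results.MP_0ee941_al.TwistedGroup25
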